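import Mathlib
import Pool.Graph.R_pool_sql_team_39128cda.H.MP_5d8c24_an.D

/-!
# MP_5d8c24_an: towers of factors of a generic automorphism

For the generic measure preserving automorphism `T`, every nontrivial factor `F` and every
nontrivial set `s` of `F`, there is a decreasing sequence `F = G 0 ⊇ G 1 ⊇ ...` of nontrivial factors
of `T`, each of them a finite cyclic extension of the next one and different from it, `s ∉ G 1`,
with trivial intersection. The generic properties come from the lemmas `chain`, `gen` of an earlier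
run (modules A-D of MP_5d8c24_an, imported); `step`, `transfer3`, `gen''` are adapted copies of its
`final`, `transfer`, `gen'`.
-/

set_option autoImplicit false

namespace Pool.Agent.Results.MP_5d8c24_an.CyclicTowers

open MeasureTheory Set Filter Topology ProbabilityTheory Pool.Agent.H.MP_a7cd30_an
  Pool.Agent.H.MP_20f905_an Pool.Agent.H.MP_5d8c24_an

/-- `T` is the weak limit of maps `S K` of finite order `p K` which are limits of powers of `T` -/
def Q3 {α : Type} {mα : MeasurableSpace α} (μ : Measure α) (T : α → α) : Prop :=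
  ∃ (p : ℕ → ℕ) (S : ℕ → α → α) (N : ℕ → ℕ → ℕ), (∀ K, 0 < p K ∧
    MeasurePreserving (S K) μ μ ∧ Conv μ (fun m => T^[N K m]) (S K) ∧
    Conv μ (fun m => T^[p K * N K m]) id) ∧ Conv μ S T

lemma gen3 : ∀ᶠ T : G in residual G, Q1 mu T.1 ∧ Q3 mu T.1 := by
  have hA := eventually_countable_forall.2 fun p : ℕ => eventually_countable_forall.2 fun N : ℕ =>
    eventually_countable_forall.2 fun k : ℕ =>
      genA (2 ^ k) (2 ^ (k + 1)) (p + 1) N (ek_pos k) (ek_pos (k + 1))
  have hB := eventually_countable_forall.2 fun k : ℕ => genB (2 ^ k) (ek_pos k)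
  filter_upwards [hA, hB, gen] with T hA hB hg
  refine ⟨hg.1, ?_⟩
  choose p S N hS p0 c1 c2 c3 using chain T hA hB
  refine ⟨p, S, N, fun K => ⟨p0 K, hS K, c1 K, c2 K⟩, ?_⟩
  refine conv_of hS T.2 (tendsto_iff_dist_tendsto_zero.2 (squeeze_zero (fun _ => dist_nonneg)
    c3 ?_))
  simpa [div_eq_mul_inv] using (tendsto_pow_atTop_nhds_zero_of_lt_one (r := (1 / 2 : ℝ))
    (by norm_num) (by norm_num)).const_mul 4

variable {α : Type} [mα : MeasurableSpace α] {μ : Measure α}

theorem transfer3 {f : α → ℝ} {g : ℝ → α} (hf : MeasurePreserving f μ mu)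
    (hg : MeasurePreserving g mu μ) (gf : ∀ᵐ x ∂μ, g (f x) = x) {T : α → α}
    (hT : MeasurePreserving T μ μ) {U : ℝ → ℝ} (hU : MeasurePreserving U mu mu)
    (h : ∀ᵐ x ∂μ, f (T x) = U (f x)) (q : Q1 mu U ∧ Q3 mu U) : Q1 μ T ∧ Q3 μ T := by
  have it : ∀ n : ℕ, ∀ᵐ x ∂μ, f (T^[n] x) = U^[n] (f x) := fun n => by
    induction n with
    | zero => exact Eventually.of_forall fun _ => rfl
    | succ n ih =>
      filter_upwards [ih, (hT.iterate n).quasiMeasurePreserving.ae h] with x h1 h2
      rw [Function.iterate_succ_apply', Function.iterate_succ_apply', h2, h1]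
  have e : ∀ (n : ℕ) (B : Set α), T^[n] ⁻¹' B =ᵐ[μ] f ⁻¹' (U^[n] ⁻¹' (g ⁻¹' B)) := fun n B => by
    filter_upwards [it n, (hT.iterate n).quasiMeasurePreserving.ae gf] with x h1 h2
    show (T^[n] x ∈ B) = (g (U^[n] (f x)) ∈ B)
    rw [← h1, h2]
  refine ⟨fun A hA ε hε => ?_, ?_⟩
  · obtain ⟨n, hn⟩ := q.1 _ (hg.measurable hA) ε hε
    refine ⟨n, ?_⟩
    have e0 : A =ᵐ[μ] f ⁻¹' (g ⁻¹' A) := e 0 A
    rw [measureReal_congr ((e n A).inter e0), ← preimage_inter,
      hf.measureReal_preimage (((hU.iterate n).measurable (hg.measurable hA)).inter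
        (hg.measurable hA)).nullMeasurableSet,
      ← hg.measureReal_preimage hA.nullMeasurableSet]
    exact hn
  · obtain ⟨p, S, N, q1, q2⟩ := q.2
    refine ⟨p, fun K => g ∘ S K ∘ f, N, fun K => ?_, fun B hB => ?_⟩
    · obtain ⟨p0, hS, c1, c2⟩ := q1 K
      refine ⟨p0, hg.comp (hS.comp hf), fun B hB => ?_, fun B hB => ?_⟩
      · refine (c1 _ (hg.measurable hB)).congr fun m => ?_
        rw [← hf.measure_preimage (((hU.iterate _).measurable (hg.measurable hB)).symmDiff
          (hS.measurable (hg.measurable hB))).nullMeasurableSet, preimage_symmDiff]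
        exact (measure_congr ((e _ B).symmDiff (ae_eq_refl _))).symm
      · refine (c2 _ (hg.measurable hB)).congr fun m => ?_
        rw [← hf.measure_preimage (((hU.iterate _).measurable (hg.measurable hB)).symmDiff
          (measurable_id (hg.measurable hB))).nullMeasurableSet, preimage_symmDiff]
        exact (measure_congr ((e _ B).symmDiff (e 0 B))).symm
    · refine (q2 _ (hg.measurable hB)).congr fun K => ?_
      rw [← hf.measure_preimage (((q1 K).2.1.measurable (hg.measurable hB)).symmDiff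
        (hU.measurable (hg.measurable hB))).nullMeasurableSet, preimage_symmDiff]
      exact (measure_congr ((ae_eq_refl _).symmDiff (e 1 B))).symm

theorem gen'' [StandardBorelSpace α] [IsProbabilityMeasure μ] [NullSingletonClass μ] :
    ∀ᶠ T in @residual _ (ta μ), Q1 μ T.1 ∧ Q3 μ T.1 := by
  let _ := ta μ
  obtain ⟨f, g, hf, hg, gf, fg⟩ := iso (μ := μ)
  have a : ∀ T : {e : α ≃ᵐ α // MeasurePreserving e.toFun μ μ}, ∃ U : G,
      ∀ᵐ x ∂μ, f (T.1 x) = U.1 (f x) := fun T => by
    have hT : MeasurePreserving T.1 μ μ := T.2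
    obtain ⟨U, hU, -⟩ := realize (hf.comp (hT.comp hg))
      (hf.measurable.comp (T.1.symm.measurable.comp hg.measurable)) (by
        filter_upwards [fg, (hT.comp hg).quasiMeasurePreserving.ae gf] with y h1 h2
        simp only [Function.comp] at h2 ⊢
        rw [h2, T.1.symm_apply_apply, h1])
    refine ⟨U, ?_⟩
    filter_upwards [hf.quasiMeasurePreserving.ae hU, gf] with x h1 h2
    rw [h1]; simp only [Function.comp, h2]
  have b : ∀ U : G, ∃ T : {e : α ≃ᵐ α // MeasurePreserving e.toFun μ μ},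
      ∀ᵐ y ∂mu, g (U.1 y) = T.1 (g y) := fun U => by
    obtain ⟨T, hT⟩ := realize' (hg.comp (U.2.comp hf))
      (hg.measurable.comp (U.1.symm.measurable.comp hf.measurable)) (by
        filter_upwards [gf, (U.2.comp hf).quasiMeasurePreserving.ae fg] with y h1 h2
        simp only [Function.comp] at h2 ⊢
        rw [h2, U.1.symm_apply_apply, h1])
    refine ⟨T, ?_⟩
    filter_upwards [hg.quasiMeasurePreserving.ae hT, fg] with x h1 h2
    rw [h1]; simp only [Function.comp, h2]
  choose Φ hΦ using a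
  choose Ψ hΨ using b
  have cΦ : Continuous Φ := by
    refine Eq.subst (motive := fun t => Continuous[_, t] Φ) fz_eq
      (continuous_generateFrom_iff.2 ?_)
    rintro _ ⟨T₀, A, hA, δ, -, rfl⟩
    have c : Continuous fun T : {e : α ≃ᵐ α // MeasurePreserving e.toFun μ μ} =>
        μ (symmDiff (Set.preimage T.1.toFun (f ⁻¹' A)) (f ⁻¹' (T₀.1 ⁻¹' A))) :=
      continuous_iff_le_induced.2 (iInf_le_of_le _ (iInf_le_of_le _ (iInf_le_of_le
        (hf.measurable hA) (iInf_le_of_le (hf.measurable (T₀.1.measurable hA)) le_rfl))))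
    convert isOpen_lt c (continuous_const (y := ENNReal.ofReal δ)) using 1
    ext T
    rw [mem_preimage, mem_ofPred_eq, mem_ofPred_eq, ← hf.measure_preimage
      (((Φ T).1.measurable hA).symmDiff (T₀.1.measurable hA)).nullMeasurableSet, preimage_symmDiff,
      measure_congr (EventuallyEq.symmDiff (t := T.1.toFun ⁻¹' (f ⁻¹' A)) ?_ (ae_eq_refl _))]
    filter_upwards [hΦ T] with x hx
    show ((Φ T).1 (f x) ∈ A) = (f (T.1 x) ∈ A)
    rw [hx]
  have cΨ : Continuous Ψ := by
    refine continuous_iInf_rng.2 fun A => continuous_iInf_rng.2 fun B =>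
      continuous_iInf_rng.2 fun hA => continuous_iInf_rng.2 fun hB =>
      continuous_induced_rng.2 ?_
    refine (ENNReal.continuous_ofReal.comp (cont_sd (hg.measurable hA)
      (hg.measurable hB))).congr fun U => ?_
    simp only [Function.comp]
    rw [ofReal_measureReal (measure_ne_top _ _), ← hg.measure_preimage
      (((Ψ U).2.measurable hA).symmDiff hB).nullMeasurableSet, preimage_symmDiff]
    refine measure_congr (EventuallyEq.symmDiff ?_ (ae_eq_refl _))
    filter_upwards [hΨ U] with x hx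
    show (g (U.1 x) ∈ A) = ((Ψ U).1 (g x) ∈ A)
    rw [hx]
  have key := res_transfer cΦ cΨ (fun T W hW hT => ?_) fun U W hW hU => ?_
  · filter_upwards [key.eventually gen3] with T hT
    exact transfer3 hf hg gf T.2 (Φ T).2 (hΦ T) hT
  · have e : ⇑(Ψ (Φ T)).1 =ᵐ[μ] T.1 := by
      have hT : MeasurePreserving T.1 μ μ := T.2
      filter_upwards [hf.quasiMeasurePreserving.ae (hΨ (Φ T)), hΦ T, gf,
        hT.quasiMeasurePreserving.ae gf] with x h1 h2 h3 h4
      rw [← h4, h2, h1, h3]
    have : 𝓝 (Ψ (Φ T)) = 𝓝 T := by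
      simp only [nhds_iInf, nhds_induced]
      refine iInf_congr fun A => iInf_congr fun B => iInf_congr fun _ => iInf_congr fun _ => ?_
      congr 2
      refine measure_congr (EventuallyEq.symmDiff ?_ (ae_eq_refl _))
      filter_upwards [e] with x hx
      show ((Ψ (Φ T)).1 x ∈ A) = (T.1 x ∈ A)
      rw [hx]
    exact mem_of_mem_nhds (this ▸ hW.mem_nhds hT)
  · have e : ⇑(Φ (Ψ U)).1 =ᵐ[mu] U.1 := by
      filter_upwards [hg.quasiMeasurePreserving.ae (hΦ (Ψ U)), hΨ U, fg,
        U.2.quasiMeasurePreserving.ae fg] with x h1 h2 h3 h4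
      rw [← h4, h2, h1, h3]
    have e2 : koop _ (Φ (Ψ U)).2 idL = koop _ U.2 idL :=
      Lp.ext ((koop_id _).trans (e.trans (koop_id _).symm))
    exact ((tend_of (F := fun _ : ℕ => Φ (Ψ U)) (L := atTop) (T := U)
      (by rw [e2]; exact tendsto_const_nhds)).eventually (hW.mem_nhds hU)).exists.choose_spec

/-- `F` is (mod `μ`) a factor of `T`: a sub-σ-algebra invariant under `T` and its inverse -/
def IsFactor {α : Type} (F : MeasurableSpace α) {mα : MeasurableSpace α} (μ : Measure α)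
    (T : α ≃ᵐ α) : Prop :=
  F ≤ mα ∧ ∀ s, MeasurableSet[F] s →
    (∃ t, MeasurableSet[F] t ∧ μ (symmDiff (T ⁻¹' s) t) = 0) ∧
    ∃ t, MeasurableSet[F] t ∧ μ (symmDiff (T.symm ⁻¹' s) t) = 0

/-- `F` contains a set which is neither null nor conull -/
def Nontriv {α : Type} (F : MeasurableSpace α) {mα : MeasurableSpace α} (μ : Measure α) : Prop :=
  ∃ s, MeasurableSet[F] s ∧ 0 < μ s ∧ μ s < 1

/-- the factor `F` of `T` is a finite cyclic extension of `G`: there is a measure preserving map `S`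
of finite order, commuting with `T`, preserving `F` and a weak limit of powers of `T` (all mod `μ`),
such that `G` consists of the `S`-invariant sets of `F` -/
def CyclicOver {α : Type} (F G : MeasurableSpace α) {mα : MeasurableSpace α} (μ : Measure α)
    (T : α ≃ᵐ α) : Prop :=
  ∃ (p : ℕ) (S : α → α) (N : ℕ → ℕ), 0 < p ∧ MeasurePreserving S μ μ ∧
    (∀ B, MeasurableSet B → μ (symmDiff (S^[p] ⁻¹' B) B) = 0) ∧
    (∀ B, MeasurableSet B → μ (symmDiff (S ⁻¹' (T ⁻¹' B)) (T ⁻¹' (S ⁻¹' B))) = 0) ∧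
    (∀ B, MeasurableSet B →
      Tendsto (fun m => μ (symmDiff (T^[N m] ⁻¹' B) (S ⁻¹' B))) atTop (𝓝 0)) ∧
    (∀ B, MeasurableSet[F] B → ∃ t, MeasurableSet[F] t ∧ μ (symmDiff (S ⁻¹' B) t) = 0) ∧
    ∀ B, MeasurableSet[G] B ↔ MeasurableSet[F] B ∧ μ (symmDiff (S ⁻¹' B) B) = 0

/-- there is a decreasing sequence `F = G 0 ≥ G 1 ≥ ...` of nontrivial factors of `T`, each a finite
cyclic extension of the next one and different from it (mod `μ`), such that `s` is not in `G 1`
(mod `μ`) and only null and conull sets are in all the `G k` (mod `μ`) -/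
def HasTower {α : Type} (F : MeasurableSpace α) {mα : MeasurableSpace α} (μ : Measure α)
    (T : α ≃ᵐ α) (s : Set α) : Prop :=
  ∃ G : ℕ → MeasurableSpace α, G 0 = F ∧
    (∀ t, MeasurableSet[G 1] t → μ (symmDiff s t) ≠ 0) ∧
    (∀ k, IsFactor (G k) μ T ∧ Nontriv (G k) μ ∧ G (k + 1) ≤ G k ∧
      CyclicOver (G k) (G (k + 1)) μ T ∧
      ∃ u, MeasurableSet[G k] u ∧ ∀ t, MeasurableSet[G (k + 1)] t → μ (symmDiff u t) ≠ 0) ∧
    ∀ B, MeasurableSet B → (∀ k, ∃ t, MeasurableSet[G k] t ∧ μ (symmDiff B t) = 0) →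
      μ B = 0 ∨ μ B = 1

theorem step {α : Type} (F : MeasurableSpace α) {mα : MeasurableSpace α} {μ : Measure α}
    [IsProbabilityMeasure μ] (T : α ≃ᵐ α)
    (hT : MeasurePreserving T μ μ) (h1 : Q1 μ T) (hF : IsFactor F μ T) {s : Set α}
    (sF : MeasurableSet[F] s) (s0 : 0 < μ s) (s1 : μ s < 1) {p : ℕ} {S : α → α} {N : ℕ → ℕ}
    (p0 : 0 < p) (hS : MeasurePreserving S μ μ) (c1 : Conv μ (fun m => T^[N m]) S)
    (c2 : Conv μ (fun m => T^[p * N m]) id) :
    IsFactor (invAlg F μ S) μ T ∧ Nontriv (invAlg F μ S) μ ∧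
      CyclicOver F (invAlg F μ S) μ T := by
  obtain ⟨hF, hinv⟩ := hF
  simp only [IsFactor, Nontriv, CyclicOver, measure_symmDiff_eq_zero_iff] at hinv ⊢
  have hq := hT.quasiMeasurePreserving
  have it : ∀ n : ℕ, ∀ B, MeasurableSet[F] B →
      ∃ t, MeasurableSet[F] t ∧ T^[n] ⁻¹' B =ᵐ[μ] t := by
    intro n
    induction n with
    | zero => exact fun B hB => ⟨B, hB, ae_eq_refl _⟩
    | succ n ih =>
      intro B hB
      obtain ⟨t, ht, e⟩ := ih B hB
      obtain ⟨u, hu, e'⟩ := (hinv t ht).1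
      exact ⟨u, hu, (hq.preimage_ae_eq e).trans e'⟩
  have a0 : 0 < μ.real s := ENNReal.toReal_pos s0.ne' (measure_ne_top _ _)
  have a1 : μ.real s < 1 := by
    have := (ENNReal.toReal_lt_toReal (measure_ne_top μ s) ENNReal.one_ne_top).2 s1
    simpa [Measure.real] using this
  have hSq := hS.quasiMeasurePreserving
  have small : ∀ k : ℕ, ∃ B, MeasurableSet[F] B ∧ 0 < μ.real B ∧ μ.real B ≤ μ.real s ∧
      μ.real B ≤ ((1 + μ.real s) / 2) ^ k := by
    intro k
    induction k with
    | zero => exact ⟨s, sF, a0, le_rfl, by simp⟩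
    | succ k ih =>
      obtain ⟨B, hB, b0, b1, b2⟩ := ih
      have m0 : 0 < min (μ.real B) ((1 - μ.real s) / 2) := lt_min b0 (by linarith)
      obtain ⟨n, hn⟩ := h1 B (hF B hB) _ (mul_pos b0 m0)
      obtain ⟨t, ht, e⟩ := it n B hB
      rw [measureReal_congr (e.inter (ae_eq_refl B)), abs_lt] at hn
      have m1 := mul_le_mul_of_nonneg_left (min_le_left (μ.real B) ((1 - μ.real s) / 2)) b0.le
      have m2 := mul_le_mul_of_nonneg_left (min_le_right (μ.real B) ((1 - μ.real s) / 2)) b0.le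
      have m3 : μ.real (t ∩ B) ≤ μ.real B * ((1 + μ.real s) / 2) := by nlinarith [hn.2]
      refine ⟨t ∩ B, ht.inter hB, by nlinarith [hn.1],
        (measureReal_mono inter_subset_right).trans b1, m3.trans ?_⟩
      rw [pow_succ]
      exact mul_le_mul_of_nonneg_right b2 (by linarith)
  have Sm : ∀ B, MeasurableSet[F] B → ∃ t, MeasurableSet[F] t ∧ S ⁻¹' B =ᵐ[μ] t := fun B hB =>
    lim_mem (fun m => it (N m) B hB) (c1 B (hF B hB))
  have Sit : ∀ n : ℕ, ∀ B, MeasurableSet[F] B →
      ∃ t, MeasurableSet[F] t ∧ S^[n] ⁻¹' B =ᵐ[μ] t := by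
    intro n
    induction n with
    | zero => exact fun B hB => ⟨B, hB, ae_eq_refl _⟩
    | succ n ih =>
      intro B hB
      obtain ⟨t, ht, e⟩ := ih B hB
      obtain ⟨u, hu, e'⟩ := Sm t ht
      exact ⟨u, hu, (hSq.preimage_ae_eq e).trans e'⟩
  have cj : ∀ j : ℕ, Conv μ (fun m => T^[j * N m]) S^[j] := fun j => by
    induction j with
    | zero => simpa using Conv.const (μ := μ) id
    | succ j ih =>
      have := ih.comp (fun m => T.measurable.iterate _) (fun m => hT.iterate _)
        (hS.measurable.iterate j) c1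
      simpa only [← Function.iterate_add, add_one_mul, ← Function.iterate_succ] using this
  have per : ∀ B, MeasurableSet B → S^[p] ⁻¹' B =ᵐ[μ] B := fun B hB =>
    lim_unique (cj p B hB) (c2 B hB)
  have com : ∀ B, MeasurableSet B → S ⁻¹' (T ⁻¹' B) =ᵐ[μ] T ⁻¹' (S ⁻¹' B) := fun B hB => by
    have a := (Conv.const (μ := μ) T).comp (fun _ => T.measurable) (fun m => hT.iterate _)
      T.measurable c1 B hB
    have b := c1.comp (fun m => T.measurable.iterate _) (fun _ => hT) hS.measurable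
      (Conv.const T) B hB
    simp only [← Function.iterate_succ'] at a
    simp only [← Function.iterate_succ] at b
    exact lim_unique a b
  refine ⟨⟨fun B hB => hF B hB.1, fun B hB => ⟨?_, ?_⟩⟩, ?_, p, S, N, p0, hS, per, com, c1, Sm,
    fun B => Iff.rfl⟩
  · obtain ⟨t, ht, e⟩ := (hinv B hB.1).1
    exact ⟨t, ⟨ht, (hSq.preimage_ae_eq e.symm).trans ((com B (hF B hB.1)).trans
      ((hq.preimage_ae_eq hB.2).trans e))⟩, e⟩
  · obtain ⟨t, ht, e⟩ := (hinv B hB.1).2
    refine ⟨t, ⟨ht, ?_⟩, e⟩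
    have e1 : T ⁻¹' t =ᵐ[μ] B := by
      have := hq.preimage_ae_eq e.symm
      rwa [← preimage_comp, T.symm_comp_self, preimage_id] at this
    have e2 : T ⁻¹' (S ⁻¹' t) =ᵐ[μ] T ⁻¹' t :=
      (com t (hF t ht)).symm.trans ((hSq.preimage_ae_eq e1).trans (hB.2.trans e1.symm))
    have e3 := (hT.symm T).quasiMeasurePreserving.preimage_ae_eq e2
    rwa [← preimage_comp, ← preimage_comp (f := T.symm), T.self_comp_symm, preimage_id,
      preimage_id] at e3
  · obtain ⟨k, hk⟩ := exists_pow_lt_of_lt_one (show (0 : ℝ) < 1 / p by positivity)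
      (show (1 + μ.real s) / 2 < 1 by linarith)
    obtain ⟨B, hB, b0, -, b2⟩ := small k
    choose t ht e using fun j : ℕ => Sit j B hB
    have eC : (⋃ j ∈ Finset.range p, S^[j] ⁻¹' B) =ᵐ[μ] ⋃ j ∈ Finset.range p, t j :=
      Filter.EventuallyEq.countable_iUnion fun j =>
        Filter.EventuallyEq.countable_iUnion fun _ => e j
    refine ⟨⋃ j ∈ Finset.range p, t j, ⟨MeasurableSet.iUnion fun j =>
      MeasurableSet.iUnion fun _ => ht j, ?_⟩, ?_, ?_⟩
    · refine (hSq.preimage_ae_eq eC.symm).trans (EventuallyEq.trans ?_ eC)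
      filter_upwards [per B (hF B hB)] with x hx
      have hx' : S^[p] x ∈ B ↔ x ∈ B := iff_of_eq hx
      refine propext ⟨fun h => ?_, fun h => ?_⟩
      · obtain ⟨j, hj, h⟩ := mem_iUnion₂.1 h
        rw [Finset.mem_range] at hj
        rcases (Nat.succ_le_of_lt hj).lt_or_eq with l | l
        · exact mem_iUnion₂.2 ⟨j + 1, Finset.mem_range.2 l, h⟩
        · refine mem_iUnion₂.2 ⟨0, Finset.mem_range.2 p0, hx'.1 ?_⟩
          rw [← l]; exact h
      · obtain ⟨j, hj, h⟩ := mem_iUnion₂.1 h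
        rw [Finset.mem_range] at hj
        cases j with
        | zero =>
          refine mem_iUnion₂.2 ⟨p - 1, Finset.mem_range.2 (by omega), ?_⟩
          have := hx'.2 h
          rwa [show p = p - 1 + 1 by omega] at this
        | succ j => exact mem_iUnion₂.2 ⟨j, Finset.mem_range.2 (by omega), h⟩
    · rw [← measure_congr eC]
      refine lt_of_lt_of_le (pos_iff_ne_zero.2 fun z => ?_) (measure_mono (s := B) fun x hx =>
        mem_iUnion₂.2 ⟨0, Finset.mem_range.2 p0, hx⟩)
      rw [Measure.real, z] at b0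
      simp at b0
    · rw [← measure_congr eC, ← ENNReal.toReal_lt_toReal (measure_ne_top _ _) ENNReal.one_ne_top]
      refine (measureReal_biUnion_finset_le _ _).trans_lt ?_
      rw [Finset.sum_congr rfl fun j _ =>
        (hS.iterate j).measureReal_preimage (hF B hB).nullMeasurableSet]
      simp only [Finset.sum_const, Finset.card_range, nsmul_eq_mul, ENNReal.toReal_one]
      have := b2.trans_lt hk
      rwa [lt_div_iff₀ (by positivity), mul_comm] at this

theorem tower {α : Type} (F : MeasurableSpace α) {mα : MeasurableSpace α} {μ : Measure α}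
    [IsProbabilityMeasure μ] (T : α ≃ᵐ α) (hT : MeasurePreserving T μ μ)
    (h1 : Q1 μ T) (h3 : Q3 μ T) (hF : IsFactor F μ T) {s : Set α}
    (sF : MeasurableSet[F] s) (s0 : 0 < μ s) (s1 : μ s < 1) : HasTower F μ T s := by
  have hq := hT.quasiMeasurePreserving
  have erg : ∀ B, MeasurableSet B → T ⁻¹' B =ᵐ[μ] B → μ B = 0 ∨ μ B = 1 := fun B hB e => by
    have e2 : ∀ n : ℕ, T^[n] ⁻¹' B =ᵐ[μ] B := fun n => by
      induction n with
      | zero => exact ae_eq_refl _
      | succ n ih => exact (hq.preimage_ae_eq ih).trans e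
    by_contra hc
    rw [not_or] at hc
    have b0 : 0 < μ.real B := ENNReal.toReal_pos hc.1 (measure_ne_top _ _)
    have b1 : μ.real B < 1 := by
      have := (ENNReal.toReal_lt_toReal (measure_ne_top μ B) ENNReal.one_ne_top).2
        (lt_of_le_of_ne prob_le_one hc.2)
      simpa [Measure.real] using this
    obtain ⟨n, hn⟩ := h1 B hB (μ.real B - μ.real B ^ 2) (by nlinarith)
    rw [measureReal_congr ((e2 n).inter (ae_eq_refl B)), inter_self] at hn
    exact absurd hn (not_lt.2 (le_abs_self _))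
  obtain ⟨p, S, N, q, c⟩ := h3
  have mv : ∀ s : Set α, MeasurableSet s → 0 < μ s → μ s < 1 → ∀ k : ℕ,
      ∃ K, k ≤ K ∧ ¬ S K ⁻¹' s =ᵐ[μ] s := fun s hs s0 s1 k => by
    by_contra hc
    push Not at hc
    have l2 : Tendsto (fun m => μ (symmDiff (S m ⁻¹' s) s)) atTop (𝓝 0) :=
      tendsto_const_nhds.congr' ((eventually_ge_atTop k).mono fun m hm =>
        (measure_symmDiff_eq_zero_iff.2 (hc m hm)).symm)
    rcases erg s hs (lim_unique (c s hs) l2) with h | h
    · exact s0.ne' h
    · exact s1.ne h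
  let X : Type := {x : MeasurableSpace α × Set α //
    IsFactor x.1 μ T ∧ MeasurableSet[x.1] x.2 ∧ 0 < μ x.2 ∧ μ x.2 < 1}
  have nx : ∀ (k : ℕ) (x : X), ∃ (y : X) (K : ℕ), k ≤ K ∧ y.1.1 = invAlg x.1.1 μ (S K) ∧
      ¬ S K ⁻¹' x.1.2 =ᵐ[μ] x.1.2 := fun k x => by
    obtain ⟨⟨A, u⟩, hA, uA, u0, u1⟩ := x
    obtain ⟨K, hK, nK⟩ := mv u (hA.1 u uA) u0 u1 k
    obtain ⟨p0, hS, c1, c2⟩ := q K
    obtain ⟨a1, ⟨v, vG, v0, v1⟩, -⟩ := step A T hT h1 hA uA u0 u1 p0 hS c1 c2
    exact ⟨⟨(invAlg A μ (S K), v), a1, vG, v0, v1⟩, K, hK, rfl, nK⟩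
  choose nx K hK eK nS using nx
  let st : ℕ → X := fun k => Nat.rec ⟨(F, s), hF, sF, s0, s1⟩ (fun k x => nx k x) k
  have st1 : ∀ k, (st (k + 1)).1.1 = invAlg (st k).1.1 μ (S (K k (st k))) := fun k =>
    eK k (st k)
  have strict : ∀ k, ∀ t, MeasurableSet[(st (k + 1)).1.1] t → μ (symmDiff (st k).1.2 t) ≠ 0 := by
    intro k t ht e
    rw [st1] at ht
    rw [measure_symmDiff_eq_zero_iff] at e
    have hSq := (q (K k (st k))).2.1.quasiMeasurePreserving
    exact nS k (st k) ((hSq.preimage_ae_eq e).trans (ht.2.trans e.symm))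
  refine ⟨fun k => (st k).1.1, rfl, strict 0, fun k => ?_, fun B hB h => ?_⟩
  · obtain ⟨hA, uA, u0, u1⟩ := (st k).2
    obtain ⟨p0, hS, c1, c2⟩ := q (K k (st k))
    refine ⟨hA, ⟨_, uA, u0, u1⟩, ?_, ?_, _, uA, strict k⟩
    · show (st (k + 1)).1.1 ≤ (st k).1.1
      rw [st1]
      exact fun B hB => hB.1
    · show CyclicOver (st k).1.1 (st (k + 1)).1.1 μ T
      rw [st1]
      exact (step _ T hT h1 hA uA u0 u1 p0 hS c1 c2).2.2
  · have e : ∀ k, S (K k (st k)) ⁻¹' B =ᵐ[μ] B := fun k => by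
      obtain ⟨t, ht, e⟩ := h (k + 1)
      rw [measure_symmDiff_eq_zero_iff] at e
      have ht : MeasurableSet[(st (k + 1)).1.1] t := ht
      rw [st1] at ht
      have hSq := (q (K k (st k))).2.1.quasiMeasurePreserving
      exact (hSq.preimage_ae_eq e).trans (ht.2.trans e.symm)
    have lK : Tendsto (fun k => K k (st k)) atTop atTop :=
      tendsto_atTop_mono (fun k => hK k (st k)) tendsto_id
    refine erg B hB (lim_unique ((c B hB).comp lK) ?_)
    refine tendsto_const_nhds.congr fun k => ?_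
    exact (measure_symmDiff_eq_zero_iff.2 (e k)).symm

/-- the group of automorphisms of `(α, μ)` -/
abbrev Aut {α : Type} [MeasurableSpace α] (μ : Measure α) : Type :=
  {e : α ≃ᵐ α // MeasurePreserving e.toFun μ μ}

/-- the weak topology: the coarsest one in which `T ↦ μ (T ⁻¹ A ∆ B)` is continuous for all
measurable `A`, `B` -/
@[reducible] noncomputable def weakTop {α : Type} [MeasurableSpace α] (μ : Measure α) :
    TopologicalSpace (Aut μ) :=
  ⨅ (A : Set α) (B : Set α) (_ : MeasurableSet A) (_ : MeasurableSet B),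
    TopologicalSpace.induced (fun T : Aut μ => μ (symmDiff (T.1 ⁻¹' A) B)) inferInstance

/-- For the generic automorphism `T` of a standard atomless probability space: for every nontrivial
factor `F` of `T` and every set `s` of `F` with `0 < μ s < 1` there is a tower as in `HasTower`. -/
theorem result (α : Type) [MeasurableSpace α] [StandardBorelSpace α] (μ : Measure α)
    [IsProbabilityMeasure μ] [NullSingletonClass μ] :
    ∀ᶠ T : Aut μ in @residual _ (weakTop μ), ∀ F : MeasurableSpace α, IsFactor F μ T.1 →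
      ∀ s, MeasurableSet[F] s → 0 < μ s → μ s < 1 → HasTower F μ T.1 s := by
  have h := gen'' (μ := μ)
  filter_upwards [h] with T hT F hF s sF s0 s1
  exact tower F T.1 T.2 hT.1 hT.2 hF sF s0 s1

end Pool.Agent.Results.MP_5d8c24_an.CyclicTowers
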